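import Mathlib

set_option autoImplicit false

open MeasureTheory Set Filter Topology
open scoped Real ENNReal NNReal

namespace Pool.Agent.H53.EH

/-- the two partial derivatives -/
noncomputable def ux (u : ℂ → ℝ) (z : ℂ) : ℝ := fderiv ℝ u z 1
noncomputable def uy (u : ℂ → ℝ) (z : ℂ) : ℝ := fderiv ℝ u z Complex.I

/-- squared length of the gradient -/
noncomputable def gsq (u : ℂ → ℝ) (z : ℂ) : ℝ := (ux u z) ^ 2 + (uy u z) ^ 2

/-- inner product of two gradients -/
noncomputable def gin (u v : ℂ → ℝ) (z : ℂ) : ℝ := ux u z * ux v z + uy u z * uy v z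

/-- directional derivative in terms of the partial ones -/
lemma fderiv_apply (u : ℂ → ℝ) (z e : ℂ) :
    fderiv ℝ u z e = e.re * ux u z + e.im * uy u z := by
  have h : e = e.re • (1 : ℂ) + e.im • Complex.I := by
    simp [Complex.re_add_im]
  conv_lhs => rw [h]
  rw [map_add, map_smul, map_smul]
  simp [ux, uy, smul_eq_mul]

lemma abs_ux_le {u : ℂ → ℝ} {K : ℝ≥0} (hu : LipschitzWith K u) (z : ℂ) : |ux u z| ≤ K := by
  have h1 := norm_fderiv_le_of_lipschitz ℝ (x₀ := z) hu
  have h2 := (fderiv ℝ u z).le_opNorm (1 : ℂ)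
  simp only [norm_one, mul_one] at h2
  calc |ux u z| = ‖fderiv ℝ u z 1‖ := rfl
    _ ≤ K := h2.trans h1

lemma abs_uy_le {u : ℂ → ℝ} {K : ℝ≥0} (hu : LipschitzWith K u) (z : ℂ) : |uy u z| ≤ K := by
  have h1 := norm_fderiv_le_of_lipschitz ℝ (x₀ := z) hu
  have h2 := (fderiv ℝ u z).le_opNorm Complex.I
  simp only [Complex.norm_I, mul_one] at h2
  calc |uy u z| = ‖fderiv ℝ u z Complex.I‖ := rfl
    _ ≤ K := h2.trans h1

lemma measurable_ux {u : ℂ → ℝ} : Measurable (ux u) := measurable_fderiv_apply_const ℝ u 1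
lemma measurable_uy {u : ℂ → ℝ} : Measurable (uy u) := measurable_fderiv_apply_const ℝ u Complex.I

/-- the truncated logarithm -/
noncomputable def lg (w : ℂ) (ε T : ℝ) (z : ℂ) : ℝ := Real.log (min (max ‖z - w‖ ε) T)

lemma log_lip {ε x y : ℝ} (hε : 0 < ε) (hx : ε ≤ x) (hy : ε ≤ y) :
    |Real.log x - Real.log y| ≤ ε⁻¹ * |x - y| := by
  wlog h : y ≤ x generalizing x y with H
  · rw [abs_sub_comm, abs_sub_comm x y]
    exact H hy hx (le_of_not_ge h)
  have hx0 : 0 < x := hε.trans_le hx
  have hy0 : 0 < y := hε.trans_le hy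
  rw [abs_of_nonneg (sub_nonneg.2 (Real.log_le_log hy0 h)), abs_of_nonneg (sub_nonneg.2 h),
    ← Real.log_div hx0.ne' hy0.ne']
  calc Real.log (x / y) ≤ x / y - 1 := Real.log_le_sub_one_of_pos (div_pos hx0 hy0)
    _ = y⁻¹ * (x - y) := by field_simp
    _ ≤ ε⁻¹ * (x - y) := by
        apply mul_le_mul_of_nonneg_right _ (sub_nonneg.2 h)
        exact inv_anti₀ hε hy

lemma lg_lip (w : ℂ) {ε T : ℝ} (hε : 0 < ε) (hT : ε < T) :
    LipschitzWith (Real.toNNReal ε⁻¹) (lg w ε T) := by
  apply LipschitzWith.of_dist_le_mul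
  intro z z'
  have h1 : LipschitzWith 1 (fun z : ℂ => min (max ‖z - w‖ ε) T) := by
    have h0 : LipschitzWith 1 (fun z : ℂ => ‖z - w‖) := by
      apply LipschitzWith.of_dist_le_mul
      intro a b
      simp only [NNReal.coe_one, one_mul, Real.dist_eq]
      calc |‖a - w‖ - ‖b - w‖| ≤ ‖(a - w) - (b - w)‖ := abs_norm_sub_norm_le _ _
        _ = dist a b := by rw [dist_eq_norm]; congr 1; ring
    exact (h0.max_const ε).min_const T
  have h2 := h1.dist_le_mul z z'
  simp only [NNReal.coe_one, one_mul, Real.dist_eq] at h2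
  rw [Real.dist_eq, Real.coe_toNNReal _ (inv_nonneg.2 hε.le)]
  refine (log_lip hε (le_min (le_max_right _ _) hT.le) (le_min (le_max_right _ _) hT.le)).trans ?_
  exact mul_le_mul_of_nonneg_left h2 (inv_nonneg.2 hε.le)

lemma norm_sub_hasFDerivAt {w z : ℂ} (h : z ≠ w) (e : ℂ) :
    HasDerivAt (fun t : ℝ => Real.log ‖z + t • e - w‖)
      (((z - w).re * e.re + (z - w).im * e.im) / ‖z - w‖ ^ 2) 0 := by
  have h0 : z - w ≠ 0 := sub_ne_zero.2 h
  have hpos : 0 < ‖z - w‖ ^ 2 := by positivity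
  have heq : (fun t : ℝ => Real.log ‖z + t • e - w‖) =
      fun t : ℝ => (1 / 2) * Real.log (((z - w).re + t * e.re) ^ 2 + ((z - w).im + t * e.im) ^ 2) := by
    funext t
    have : ‖z + t • e - w‖ ^ 2 =
        ((z - w).re + t * e.re) ^ 2 + ((z - w).im + t * e.im) ^ 2 := by
      rw [← Complex.normSq_eq_norm_sq, Complex.normSq_apply]
      simp; ring
    rw [← this, Real.log_pow]; push_cast; ring
  rw [heq]
  have hn : ‖z - w‖ ^ 2 = (z - w).re ^ 2 + (z - w).im ^ 2 := by
    rw [← Complex.normSq_eq_norm_sq, Complex.normSq_apply]; ring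
  have hd1 : HasDerivAt (fun t : ℝ => ((z - w).re + t * e.re) ^ 2 + ((z - w).im + t * e.im) ^ 2)
      (2 * ((z - w).re * e.re + (z - w).im * e.im)) 0 := by
    have a1 : HasDerivAt (fun t : ℝ => (z - w).re + t * e.re) e.re 0 := by
      simpa using ((hasDerivAt_id (0 : ℝ)).mul_const e.re).const_add (z - w).re
    have a2 : HasDerivAt (fun t : ℝ => (z - w).im + t * e.im) e.im 0 := by
      simpa using ((hasDerivAt_id (0 : ℝ)).mul_const e.im).const_add (z - w).im
    refine ((a1.pow 2).add (a2.pow 2)).congr_deriv ?_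
    push_cast; ring
  have hne : ((z - w).re + 0 * e.re) ^ 2 + ((z - w).im + 0 * e.im) ^ 2 ≠ 0 := by
    simp only [zero_mul, add_zero]; rw [← hn]; exact hpos.ne'
  refine ((hd1.log hne).const_mul (1 / 2 : ℝ)).congr_deriv ?_
  rw [show ((z - w).re + 0 * e.re) ^ 2 + ((z - w).im + 0 * e.im) ^ 2 = ‖z - w‖ ^ 2 by
    rw [hn]; ring]
  field_simp

lemma fderiv_lg {w z : ℂ} {ε T : ℝ} (hε : 0 < ε) (h1 : ε < ‖z - w‖) (h2 : ‖z - w‖ < T) (e : ℂ) :
    fderiv ℝ (lg w ε T) z e = ((z - w).re * e.re + (z - w).im * e.im) / ‖z - w‖ ^ 2 := by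
  have hne : z ≠ w := by
    rintro rfl
    simp at h1; linarith
  have hloc : lg w ε T =ᶠ[𝓝 z] fun z => Real.log ‖z - w‖ := by
    have hc : ContinuousAt (fun z : ℂ => ‖z - w‖) z := by fun_prop
    filter_upwards [hc.eventually (lt_mem_nhds h1), hc.eventually (gt_mem_nhds h2)] with y hy1 hy2
    simp only [lg]
    rw [max_eq_left hy1.le, min_eq_left hy2.le]
  rw [hloc.fderiv_eq]
  have hd : DifferentiableAt ℝ (fun z : ℂ => Real.log ‖z - w‖) z := by
    have h0 : z - w ≠ 0 := sub_ne_zero.2 hne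
    have : DifferentiableAt ℝ (fun z : ℂ => z - w) z := by fun_prop
    exact (this.norm ℝ h0).log (norm_ne_zero_iff.2 h0)
  have h3 : HasDerivAt (fun t : ℝ => Real.log ‖z + t • e - w‖)
      (fderiv ℝ (fun z : ℂ => Real.log ‖z - w‖) z e) 0 := by
    have hf : HasFDerivAt (fun z : ℂ => Real.log ‖z - w‖)
      (fderiv ℝ (fun z : ℂ => Real.log ‖z - w‖) z) (z + (0 : ℝ) • e) := by
      rw [zero_smul, add_zero]; exact hd.hasFDerivAt
    have hl : HasDerivAt (fun t : ℝ => z + t • e) e 0 := by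
      simpa using ((hasDerivAt_id (0 : ℝ)).smul_const e).const_add z
    exact hf.comp_hasDerivAt (0 : ℝ) hl
  exact h3.unique (norm_sub_hasFDerivAt hne e)

lemma fderiv_lg_inner {w z : ℂ} {ε T : ℝ} (hT : ε < T) (h1 : ‖z - w‖ < ε) :
    fderiv ℝ (lg w ε T) z = 0 := by
  have hloc : lg w ε T =ᶠ[𝓝 z] fun _ => Real.log ε := by
    have hc : ContinuousAt (fun z : ℂ => ‖z - w‖) z := by fun_prop
    filter_upwards [hc.eventually (gt_mem_nhds h1)] with y hy1
    simp only [lg]
    rw [max_eq_right hy1.le, min_eq_left hT.le]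
  rw [hloc.fderiv_eq]; simp

lemma fderiv_lg_outer {w z : ℂ} {ε T : ℝ} (hT : ε < T) (h1 : T < ‖z - w‖) :
    fderiv ℝ (lg w ε T) z = 0 := by
  have hloc : lg w ε T =ᶠ[𝓝 z] fun _ => Real.log T := by
    have hc : ContinuousAt (fun z : ℂ => ‖z - w‖) z := by fun_prop
    filter_upwards [hc.eventually (lt_mem_nhds h1)] with y hy1
    simp only [lg]
    rw [max_eq_left (hT.le.trans hy1.le), min_eq_right hy1.le]
  rw [hloc.fderiv_eq]; simp

/-- unit vector -/
noncomputable def ei (θ : ℝ) : ℂ := Real.cos θ + Real.sin θ * Complex.I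

lemma ei_re (θ : ℝ) : (ei θ).re = Real.cos θ := by
  simp only [ei, Complex.add_re, Complex.ofReal_re, Complex.mul_re, Complex.ofReal_im,
    Complex.I_re, Complex.I_im]; ring
lemma ei_im (θ : ℝ) : (ei θ).im = Real.sin θ := by
  simp only [ei, Complex.add_im, Complex.ofReal_re, Complex.mul_im, Complex.ofReal_im,
    Complex.I_re, Complex.I_im]; ring
lemma norm_ei (θ : ℝ) : ‖ei θ‖ = 1 := by
  have : ‖ei θ‖ ^ 2 = 1 := by
    rw [← Complex.normSq_eq_norm_sq, Complex.normSq_apply, ei_re, ei_im]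
    nlinarith [Real.cos_sq_add_sin_sq θ]
  nlinarith [norm_nonneg (ei θ)]

/-- the integrand of the ray formula in polar coordinates -/
lemma gin_lg_polar (g : ℂ → ℝ) (w : ℂ) {ε T r θ : ℝ} (hε : 0 < ε) (hT : ε < T) (hr : 0 < r)
    (h1 : r ≠ ε) (h2 : r ≠ T) :
    r * gin g (lg w ε T) (w + r * ei θ) =
      if r ∈ Ioo ε T then fderiv ℝ g (w + r * ei θ) (ei θ) else 0 := by
  have hn : ‖w + r * ei θ - w‖ = r := by
    rw [add_sub_cancel_left, norm_mul, norm_ei, mul_one, Complex.norm_real, Real.norm_eq_abs,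
      abs_of_pos hr]
  by_cases hm : r ∈ Ioo ε T
  · rw [if_pos hm]
    have hx := fderiv_lg (w := w) (z := w + r * ei θ) hε (by rw [hn]; exact hm.1)
      (by rw [hn]; exact hm.2)
    have hux : ux (lg w ε T) (w + r * ei θ) = Real.cos θ / r := by
      unfold ux
      rw [hx, hn, add_sub_cancel_left]
      simp [ei_re, ei_im]; field_simp
    have huy : uy (lg w ε T) (w + r * ei θ) = Real.sin θ / r := by
      unfold uy
      rw [hx, hn, add_sub_cancel_left]
      simp [ei_re, ei_im]; field_simp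
    rw [fderiv_apply g, gin, hux, huy, ei_re, ei_im]
    field_simp
  · rw [if_neg hm]
    have h0 : fderiv ℝ (lg w ε T) (w + r * ei θ) = 0 := by
      rcases lt_or_gt_of_ne h1 with h | h
      · exact fderiv_lg_inner hT (by rw [hn]; exact h)
      · rcases lt_or_gt_of_ne h2 with h' | h'
        · exact absurd ⟨h, h'⟩ hm
        · exact fderiv_lg_outer hT (by rw [hn]; exact h')
    simp [gin, ux, uy, h0]

/-- polar coordinates do not see null sets -/
lemma ae_polar {N : Set ℂ} (hN : MeasurableSet N) (h0 : volume N = 0) (w : ℂ) :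
    ∀ᵐ p ∂((volume : Measure (ℝ × ℝ)).restrict polarCoord.target),
      w + (p.1 : ℂ) * ei p.2 ∉ N := by
  have h1 : ∫⁻ z : ℂ, N.indicator (fun _ => (1 : ℝ≥0∞)) (w + z) = 0 := by
    rw [lintegral_add_left_eq_self (fun z => N.indicator (fun _ => (1 : ℝ≥0∞)) z) w,
      lintegral_indicator hN]
    simp [h0]
  rw [← Complex.lintegral_comp_polarCoord_symm] at h1
  have hm : Measurable fun p : ℝ × ℝ =>
      ENNReal.ofReal p.1 • N.indicator (fun _ => (1 : ℝ≥0∞)) (w + Complex.polarCoord.symm p) := by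
    have hs : Measurable fun p : ℝ × ℝ => Complex.polarCoord.symm p := by
      simp only [Complex.polarCoord_symm_apply]
      fun_prop
    have h2 : Measurable fun p : ℝ × ℝ =>
        N.indicator (fun _ => (1 : ℝ≥0∞)) (w + Complex.polarCoord.symm p) :=
      (measurable_const.indicator hN).comp (hs.const_add w)
    exact (ENNReal.measurable_ofReal.comp measurable_fst).mul h2
  rw [lintegral_eq_zero_iff hm] at h1
  have ht : MeasurableSet polarCoord.target := polarCoord.open_target.measurableSet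
  filter_upwards [h1, ae_restrict_mem ht] with p hp hpt hmem
  have hpos : 0 < p.1 := hpt.1
  have heq : Complex.polarCoord.symm p = (p.1 : ℂ) * ei p.2 := by
    rw [Complex.polarCoord_symm_apply]; rfl
  rw [heq] at hp
  simp only [Pi.zero_apply, smul_eq_mul, mul_eq_zero, ENNReal.ofReal_eq_zero] at hp
  rcases hp with h | h
  · linarith
  · rw [indicator_of_mem hmem] at h
    exact one_ne_zero h

lemma continuous_ei : Continuous ei := by
  unfold ei; fun_prop

lemma ray_lip {g : ℂ → ℝ} {K : ℝ≥0} (hg : LipschitzWith K g) (w : ℂ) (θ : ℝ) :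
    LipschitzWith K (fun s : ℝ => g (w + s * ei θ)) := by
  have h1 : LipschitzWith 1 (fun s : ℝ => w + s * ei θ) := by
    apply LipschitzWith.of_dist_le_mul
    intro a b
    simp only [NNReal.coe_one, one_mul]
    rw [dist_eq_norm, Real.dist_eq]
    have : w + (a : ℂ) * ei θ - (w + (b : ℂ) * ei θ) = ((a - b : ℝ) : ℂ) * ei θ := by
      push_cast; ring
    rw [this, norm_mul, norm_ei, mul_one, Complex.norm_real, Real.norm_eq_abs]
  have h2 := hg.comp h1
  rw [mul_one] at h2
  exact h2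

lemma ray_ftc {g : ℂ → ℝ} {K : ℝ≥0} (hg : LipschitzWith K g) (w : ℂ) (θ a b : ℝ) :
    ∫ s in a..b, deriv (fun s : ℝ => g (w + s * ei θ)) s = g (w + b * ei θ) - g (w + a * ei θ) :=
  ((ray_lip hg w θ).lipschitzOnWith (s := uIcc a b)).absolutelyContinuousOnInterval.integral_deriv_eq_sub

/-- RAY FORMULA: the gradient of a Lipschitz function against the gradient of a truncated
logarithm. -/
theorem ray {g : ℂ → ℝ} {K : ℝ≥0} (hg : LipschitzWith K g) (w : ℂ) {ε T : ℝ} (hε : 0 < ε)
    (hT : ε < T) :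
    ∫ z, gin g (lg w ε T) z =
      ∫ θ in (-π)..π, (g (w + T * ei θ) - g (w + ε * ei θ)) := by
  set h : ℝ × ℝ → ℝ := fun p => deriv (fun s : ℝ => g (w + s * ei p.2)) p.1 with hh
  set f : ℝ × ℝ → ℝ := fun p => fderiv ℝ g (w + p.1 * ei p.2) (ei p.2) with hf
  -- the null set
  set N : Set ℂ := {z | ¬ DifferentiableAt ℝ g z} ∪ (Metric.sphere w ε ∪ Metric.sphere w T)
    with hN
  have hNm : MeasurableSet N :=
    (measurableSet_of_differentiableAt ℝ g).compl.union
      (Metric.isClosed_sphere.measurableSet.union Metric.isClosed_sphere.measurableSet)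
  have hN0 : volume N = 0 := by
    refine measure_union_null ?_ (measure_union_null ?_ ?_)
    · exact hg.ae_differentiableAt
    · exact Measure.addHaar_sphere _ _ _
    · exact Measure.addHaar_sphere _ _ _
  have hae := ae_polar hNm hN0 w
  have ht : MeasurableSet polarCoord.target := polarCoord.open_target.measurableSet
  have hfh : ∀ᵐ p ∂((volume : Measure (ℝ × ℝ)).restrict polarCoord.target), h p = f p := by
    filter_upwards [hae] with p hp
    have hd : DifferentiableAt ℝ g (w + p.1 * ei p.2) := by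
      by_contra hc; exact hp (Or.inl hc)
    have hl : HasDerivAt (fun s : ℝ => w + s * ei p.2) (ei p.2) p.1 := by
      have := ((Complex.ofRealCLM.hasDerivAt (x := p.1)).mul_const (ei p.2)).const_add w
      simpa using this
    exact (hd.hasFDerivAt.comp_hasDerivAt p.1 hl).deriv
  have step1 : ∫ z, gin g (lg w ε T) z =
      ∫ p in polarCoord.target, p.1 • gin g (lg w ε T) (w + Complex.polarCoord.symm p) := by
    rw [← integral_add_left_eq_self (fun z => gin g (lg w ε T) z) w,
      ← Complex.integral_comp_polarCoord_symm]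
  have step2 : ∫ p in polarCoord.target,
      p.1 • gin g (lg w ε T) (w + Complex.polarCoord.symm p) =
      ∫ p in polarCoord.target, (Ioo ε T ×ˢ (univ : Set ℝ)).indicator h p := by
    apply integral_congr_ae
    filter_upwards [hae, hfh, ae_restrict_mem ht] with p hp hpf hpt
    have hpos : 0 < p.1 := hpt.1
    have heq : Complex.polarCoord.symm p = (p.1 : ℂ) * ei p.2 := by
      rw [Complex.polarCoord_symm_apply]; rfl
    have hn : ‖w + p.1 * ei p.2 - w‖ = p.1 := by
      rw [add_sub_cancel_left, norm_mul, norm_ei, mul_one, Complex.norm_real, Real.norm_eq_abs,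
        abs_of_pos hpos]
    have h1 : p.1 ≠ ε := by
      intro hc
      exact hp (Or.inr (Or.inl (by rw [mem_sphere_iff_norm, hn, hc])))
    have h2 : p.1 ≠ T := by
      intro hc
      exact hp (Or.inr (Or.inr (by rw [mem_sphere_iff_norm, hn, hc])))
    rw [heq, smul_eq_mul, gin_lg_polar g w hε hT hpos h1 h2]
    by_cases hm : p.1 ∈ Ioo ε T
    · rw [if_pos hm, indicator_of_mem (by exact ⟨hm, mem_univ _⟩), hpf]
    · rw [if_neg hm, indicator_of_notMem (by intro hc; exact hm hc.1)]
  have hset : polarCoord.target ∩ (Ioo ε T ×ˢ (univ : Set ℝ)) = Ioo ε T ×ˢ Ioo (-π) π := by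
    ext p
    simp only [polarCoord_target, mem_inter_iff, mem_prod, mem_Ioi, mem_Ioo, mem_univ, and_true]
    constructor
    · rintro ⟨⟨_, h2⟩, h3⟩; exact ⟨h3, h2⟩
    · rintro ⟨h3, h2⟩; exact ⟨⟨hε.trans h3.1, h2⟩, h3⟩
  have step3 : ∫ p in polarCoord.target, (Ioo ε T ×ˢ (univ : Set ℝ)).indicator h p =
      ∫ p in Ioo ε T ×ˢ Ioo (-π) π, h p := by
    rw [setIntegral_indicator (measurableSet_Ioo.prod MeasurableSet.univ), hset]
  -- integrability
  have hfm : Measurable f := by
    have : f = fun p => Real.cos p.2 * ux g (w + p.1 * ei p.2) +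
        Real.sin p.2 * uy g (w + p.1 * ei p.2) := by
      funext p
      rw [hf]; simp only [fderiv_apply g, ei_re, ei_im]
    rw [this]
    have hpm : Measurable fun p : ℝ × ℝ => w + (p.1 : ℂ) * ei p.2 := by
      have := continuous_ei
      exact Continuous.measurable (by fun_prop)
    exact ((Real.measurable_cos.comp measurable_snd).mul (measurable_ux.comp hpm)).add
      ((Real.measurable_sin.comp measurable_snd).mul (measurable_uy.comp hpm))
  have hsub : Ioo ε T ×ˢ Ioo (-π) π ⊆ polarCoord.target := by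
    rw [← hset]; exact inter_subset_left
  have hfh' : ∀ᵐ p ∂((volume : Measure (ℝ × ℝ)).restrict (Ioo ε T ×ˢ Ioo (-π) π)), f p = h p := by
    have := ae_mono (Measure.restrict_mono hsub le_rfl) hfh
    filter_upwards [this] with p hp using hp.symm
  have hint : IntegrableOn h (Ioo ε T ×ˢ Ioo (-π) π) := by
    have hfin : volume (Ioo ε T ×ˢ Ioo (-π) π : Set (ℝ × ℝ)) < ⊤ := by
      rw [Measure.volume_eq_prod, Measure.prod_prod]
      exact ENNReal.mul_lt_top (by simp) (by simp)
    have : IsFiniteMeasure ((volume : Measure (ℝ × ℝ)).restrict (Ioo ε T ×ˢ Ioo (-π) π)) :=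
      ⟨by rw [Measure.restrict_apply_univ]; exact hfin⟩
    refine Integrable.of_bound (C := K) (hfm.aestronglyMeasurable.congr hfh') ?_
    exact Filter.Eventually.of_forall fun p => norm_deriv_le_of_lipschitz (ray_lip hg w p.2)
  have step4 : ∫ p in Ioo ε T ×ˢ Ioo (-π) π, h p =
      ∫ θ in Ioo (-π) π, ∫ r in Ioo ε T, h (r, θ) := by
    rw [IntegrableOn, Measure.volume_eq_prod, ← Measure.prod_restrict] at hint
    rw [Measure.volume_eq_prod, ← Measure.prod_restrict, integral_prod_symm _ hint]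
  rw [step1, step2, step3, step4, intervalIntegral.integral_of_le (by linarith [Real.pi_pos]),
    integral_Ioc_eq_integral_Ioo]
  apply integral_congr_ae
  refine Filter.Eventually.of_forall fun θ => ?_
  simp only [hh]
  rw [← integral_Ioc_eq_integral_Ioo, ← intervalIntegral.integral_of_le hT.le]
  exact ray_ftc hg w θ ε T

end Pool.Agent.H53.EH
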