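import Mathlib
import Pool.Agent.H53.EH.Ray

set_option autoImplicit false

open MeasureTheory Set Filter Topology
open scoped Real ENNReal NNReal

namespace Pool.Agent.H53.EH

lemma ei_eq_exp (θ : ℝ) : ei θ = Complex.exp (θ * Complex.I) := by
  rw [Complex.exp_mul_I]; simp [ei]

/-- the integral over (-π, π) is the circle average -/
lemma integral_ei_eq (f : ℂ → ℝ) (w : ℂ) (ε : ℝ) :
    ∫ θ in (-π)..π, f (w + ε * ei θ) = 2 * π * Real.circleAverage f w ε := by
  rw [Real.circleAverage_eq_integral_add (-π)]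
  rw [intervalIntegral.integral_comp_add_right (fun θ => f (circleMap w ε θ)) (-π)]
  have h1 : (0 : ℝ) + -π = -π := by ring
  have h2 : 2 * π + -π = π := by ring
  rw [h1, h2, smul_eq_mul, ← mul_assoc, mul_inv_cancel₀ (by positivity), one_mul]
  congr 1
  funext θ
  rw [circleMap, ei_eq_exp]

lemma log_le_lg (w z : ℂ) {ε T : ℝ} (hε : 0 < ε) (hT : ε < T) : Real.log ε ≤ lg w ε T z :=
  Real.log_le_log hε (le_min (le_max_right _ _) hT.le)

lemma lg_le_log (w z : ℂ) {ε T : ℝ} (hε : 0 < ε) (hT : ε < T) : lg w ε T z ≤ Real.log T := by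
  refine Real.log_le_log ?_ (min_le_right _ _)
  exact lt_min (hε.trans_le (le_max_right _ _)) (hε.trans hT)

/-- on a circle of radius ε about another point -/
lemma lg_circle_lower {w w' : ℂ} (hne : w ≠ w') {ε T : ℝ} (hε : 0 < ε) (hT : ε < T)
    (hd : ‖w - w'‖ + ε ≤ T) :
    2 * π * Real.log ‖w - w'‖ ≤ ∫ θ in (-π)..π, lg w' ε T (w + ε * ei θ) := by
  have hlip := lg_lip w' hε hT
  rw [integral_ei_eq]
  apply mul_le_mul_of_nonneg_left _ (by positivity)
  have hpos : 0 < ‖w - w'‖ := norm_pos_iff.2 (sub_ne_zero.2 hne)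
  have hci : CircleIntegrable (lg w' ε T) w ε :=
    ContinuousOn.circleIntegrable hε.le hlip.continuous.continuousOn
  rcases le_or_gt ‖w - w'‖ ε with h | h
  · refine (Real.log_le_log hpos h).trans ?_
    have := Real.circleAverage_mono (c := w) (R := ε) (f₁ := fun _ => Real.log ε)
      (f₂ := lg w' ε T) (circleIntegrable_const _ _ _) hci
      (fun z _ => log_le_lg w' z hε hT)
    rwa [Real.circleAverage_const] at this
  · have hmero : CircleIntegrable (fun z => Real.log ‖z - w'‖) w ε := by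
      apply ContinuousOn.circleIntegrable hε.le
      intro z hz
      have hz0 : z - w' ≠ 0 := by
        intro hc
        rw [sub_eq_zero.1 hc] at hz
        rw [mem_sphere_iff_norm, norm_sub_rev] at hz
        linarith
      apply ContinuousAt.continuousWithinAt
      exact (continuousAt_id.sub continuousAt_const).norm.log (norm_ne_zero_iff.2 hz0)
    have hmono := Real.circleAverage_mono (c := w) (R := ε) (f₁ := fun z => Real.log ‖z - w'‖)
      (f₂ := lg w' ε T) hmero hci (by
        intro z hz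
        rw [abs_of_pos hε, mem_sphere_iff_norm] at hz
        have hz1 : ‖z - w'‖ ≤ T := by
          calc ‖z - w'‖ = ‖(z - w) + (w - w')‖ := by congr 1; ring
            _ ≤ ‖z - w‖ + ‖w - w'‖ := norm_add_le _ _
            _ ≤ T := by rw [hz]; linarith
        have hz2 : 0 < ‖z - w'‖ := by
          have : ‖w - w'‖ ≤ ‖z - w‖ + ‖z - w'‖ := by
            calc ‖w - w'‖ = ‖(z - w') - (z - w)‖ := by congr 1; ring
              _ ≤ ‖z - w'‖ + ‖z - w‖ := norm_sub_le _ _
              _ = _ := by ring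
          rw [hz] at this; linarith
        exact Real.log_le_log hz2 (le_min (le_max_left _ _) hz1))
    refine le_trans ?_ hmono
    rw [circleAverage_log_norm_sub_const_eq_log_radius_add_posLog hε.ne']
    have h3 : Real.log (ε⁻¹ * ‖w - w'‖) ≤ Real.posLog (ε⁻¹ * ‖w - w'‖) := by
      rw [Real.posLog_def]; exact le_max_right _ _
    rw [Real.log_mul (by positivity) hpos.ne', Real.log_inv] at h3
    linarith

lemma lg_circle_self (w : ℂ) {ε T : ℝ} (hε : 0 < ε) (hT : ε < T) :
    ∫ θ in (-π)..π, lg w ε T (w + ε * ei θ) = 2 * π * Real.log ε := by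
  have : ∀ θ : ℝ, lg w ε T (w + ε * ei θ) = Real.log ε := by
    intro θ
    simp only [lg]
    rw [add_sub_cancel_left, norm_mul, norm_ei, mul_one, Complex.norm_real, Real.norm_eq_abs,
      abs_of_pos hε, max_self, min_eq_left hT.le]
  simp_rw [this]
  rw [intervalIntegral.integral_const, smul_eq_mul]; ring

/-- integrability of the mixed term -/
lemma integrable_gin {u : ℂ → ℝ} {K : ℝ≥0} (hu : LipschitzWith K u) (w : ℂ) {ε T : ℝ}
    (hε : 0 < ε) (hT : ε < T) : Integrable (gin u (lg w ε T)) := by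
  have hL := lg_lip w hε hT
  have hm : Measurable (gin u (lg w ε T)) :=
    (measurable_ux.mul measurable_ux).add (measurable_uy.mul measurable_uy)
  have hsupp : Function.support (gin u (lg w ε T)) ⊆ Metric.closedBall w T := by
    intro z hz
    by_contra hc
    rw [Metric.mem_closedBall, dist_eq_norm, not_le] at hc
    apply hz
    simp [gin, ux, uy, fderiv_lg_outer hT hc]
  rw [← integrableOn_iff_integrable_of_support_subset hsupp]
  have hfin : IsFiniteMeasure ((volume : Measure ℂ).restrict (Metric.closedBall w T)) :=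
    ⟨by rw [Measure.restrict_apply_univ]; exact measure_closedBall_lt_top⟩
  refine Integrable.of_bound (C := 2 * (K * (Real.toNNReal ε⁻¹ : ℝ))) hm.aestronglyMeasurable ?_
  refine Filter.Eventually.of_forall fun z => ?_
  have h1 := abs_ux_le hu z
  have h2 := abs_uy_le hu z
  have h3 := abs_ux_le hL z
  have h4 := abs_uy_le hL z
  rw [Real.norm_eq_abs, gin]
  calc |ux u z * ux (lg w ε T) z + uy u z * uy (lg w ε T) z|
      ≤ |ux u z| * |ux (lg w ε T) z| + |uy u z| * |uy (lg w ε T) z| := by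
        rw [← abs_mul, ← abs_mul]; exact abs_add_le _ _
    _ ≤ K * (Real.toNNReal ε⁻¹ : ℝ) + K * (Real.toNNReal ε⁻¹ : ℝ) := by
        gcongr
    _ = _ := by ring

lemma circ_int {u : ℂ → ℝ} {K : ℝ≥0} (hu : LipschitzWith K u) (w : ℂ) (r : ℝ) :
    IntervalIntegrable (fun θ : ℝ => u (w + r * ei θ)) volume (-π) π := by
  apply Continuous.intervalIntegrable
  have := continuous_ei
  exact hu.continuous.comp (by fun_prop)

/-- DIRICHLET PRINCIPLE AGAINST POINTS, whole plane -/
theorem energy_points0 {K : ℝ≥0} {v : ℂ → ℝ} (hv : LipschitzWith K v)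
    (hvi : Integrable (gsq v)) {m : ℕ} (hm : 0 < m) (w : Fin m → ℂ)
    (hinj : Function.Injective w) {ρ ε T M δ : ℝ} (hε : 0 < ε) (hw : ∀ i, ‖w i‖ ≤ ρ)
    (hεT : ε < T) (hT : 2 * ρ + ε ≤ T) (hM : ∀ z, T - ρ ≤ ‖z‖ → M ≤ v z)
    (hδ : ∀ i z, ‖z - w i‖ = ε → v z ≤ δ) :
    0 ≤ (∫ z, gsq v z) - 4 * π * (M - δ) + 2 * π * Real.log T
      + 2 * π / m ^ 2 * (∑ i, ∑ j, -Real.log ‖w i - w j‖) + 2 * π / m * (-Real.log ε) := by
  have hm' : (0 : ℝ) < m := by exact_mod_cast hm
  set L : Fin m → ℂ → ℝ := fun i => lg (w i) ε T with hL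
  have hLlip : ∀ i, LipschitzWith (Real.toNNReal ε⁻¹) (L i) := fun i => lg_lip (w i) hε hεT
  have h1 : ∀ i, 2 * π * (M - δ) ≤ ∫ z, gin v (L i) z := by
    intro i
    rw [ray hv (w i) hε hεT]
    have hc : ∫ θ in (-π)..π, (M - δ) = 2 * π * (M - δ) := by
      rw [intervalIntegral.integral_const, smul_eq_mul]; ring
    rw [← hc]
    apply intervalIntegral.integral_mono_on (by linarith [Real.pi_pos])
      intervalIntegrable_const ((circ_int hv (w i) T).sub (circ_int hv (w i) ε))
    intro θ _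
    have a1 : M ≤ v (w i + T * ei θ) := by
      apply hM
      have hn : ‖(T : ℂ) * ei θ‖ = T := by
        rw [norm_mul, norm_ei, mul_one, Complex.norm_real, Real.norm_eq_abs,
          abs_of_pos (hε.trans hεT)]
      have : ‖(T : ℂ) * ei θ‖ ≤ ‖w i + T * ei θ‖ + ‖w i‖ := by
        calc ‖(T : ℂ) * ei θ‖ = ‖(w i + T * ei θ) - w i‖ := by congr 1; ring
          _ ≤ _ := norm_sub_le _ _
      rw [hn] at this
      linarith [hw i]
    have a2 : v (w i + ε * ei θ) ≤ δ := by
      apply hδ i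
      rw [add_sub_cancel_left, norm_mul, norm_ei, mul_one, Complex.norm_real, Real.norm_eq_abs,
        abs_of_pos hε]
    linarith
  have h2 : ∀ i j, (∫ z, gin (L j) (L i) z) ≤
      2 * π * Real.log T + 2 * π * (if i = j then -Real.log ε else -Real.log ‖w i - w j‖) := by
    intro i j
    rw [ray (hLlip j) (w i) hε hεT]
    rw [intervalIntegral.integral_sub (circ_int (hLlip j) (w i) T) (circ_int (hLlip j) (w i) ε)]
    have b1 : ∫ θ in (-π)..π, L j (w i + T * ei θ) ≤ 2 * π * Real.log T := by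
      have hc : ∫ θ in (-π)..π, Real.log T = 2 * π * Real.log T := by
        rw [intervalIntegral.integral_const, smul_eq_mul]; ring
      rw [← hc]
      apply intervalIntegral.integral_mono_on (by linarith [Real.pi_pos])
        (circ_int (hLlip j) (w i) T) intervalIntegrable_const
      intro θ _
      exact lg_le_log _ _ hε hεT
    by_cases hij : i = j
    · subst hij
      rw [if_pos rfl]
      have := lg_circle_self (w i) hε hεT
      simp only [hL] at b1 ⊢
      rw [this]; linarith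
    · rw [if_neg hij]
      have hne : w i ≠ w j := fun hc => hij (hinj hc)
      have hd : ‖w i - w j‖ + ε ≤ T := by
        have := norm_sub_le (w i) (w j)
        linarith [hw i, hw j]
      have := lg_circle_lower hne hε hεT hd
      simp only [hL] at b1 ⊢
      linarith
  have hpt : ∀ z, 0 ≤ gsq v z - 2 / m * (∑ i, gin v (L i) z)
      + 1 / m ^ 2 * (∑ i, ∑ j, gin (L j) (L i) z) := by
    intro z
    have e1 : ∑ i, ∑ j, gin (L j) (L i) z =
        (∑ i, ux (L i) z) ^ 2 + (∑ i, uy (L i) z) ^ 2 := by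
      simp only [gin, Finset.sum_add_distrib]
      rw [sq, sq, Finset.sum_mul_sum, Finset.sum_mul_sum]
      congr 1
      · exact Finset.sum_comm
      · exact Finset.sum_comm
    have e2 : ∑ i, gin v (L i) z = ux v z * (∑ i, ux (L i) z) + uy v z * (∑ i, uy (L i) z) := by
      simp only [gin, Finset.sum_add_distrib, Finset.mul_sum]
    rw [e1, e2, gsq]
    have : ux v z ^ 2 + uy v z ^ 2 -
        2 / m * (ux v z * (∑ i, ux (L i) z) + uy v z * (∑ i, uy (L i) z)) +
        1 / m ^ 2 * ((∑ i, ux (L i) z) ^ 2 + (∑ i, uy (L i) z) ^ 2) =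
        (ux v z - (1 / m) * (∑ i, ux (L i) z)) ^ 2 +
        (uy v z - (1 / m) * (∑ i, uy (L i) z)) ^ 2 := by
      field_simp; ring
    rw [this]; positivity
  have hi1 : ∀ i, Integrable (gin v (L i)) := fun i => integrable_gin hv (w i) hε hεT
  have hi2 : ∀ i j, Integrable (gin (L j) (L i)) :=
    fun i j => integrable_gin (hLlip j) (w i) hε hεT
  have hI : 0 ≤ ∫ z, (gsq v z - 2 / m * (∑ i, gin v (L i) z)
      + 1 / m ^ 2 * (∑ i, ∑ j, gin (L j) (L i) z)) := integral_nonneg hpt
  have hs1 : Integrable fun z => 2 / (m : ℝ) * ∑ i, gin v (L i) z :=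
    (integrable_finsetSum _ fun i _ => hi1 i).const_mul _
  have hs2 : Integrable fun z => 1 / (m : ℝ) ^ 2 * ∑ i, ∑ j, gin (L j) (L i) z :=
    (integrable_finsetSum _ fun i _ => integrable_finsetSum _ fun j _ => hi2 i j).const_mul _
  have hs3 : Integrable fun z => gsq v z - 2 / (m : ℝ) * ∑ i, gin v (L i) z := hvi.sub hs1
  rw [integral_add hs3 hs2, integral_sub hvi hs1,
    integral_const_mul, integral_const_mul, integral_finsetSum _ (fun i _ => hi1 i),
    integral_finsetSum _ (fun i _ => integrable_finsetSum _ fun j _ => hi2 i j)] at hI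
  have e3 : ∀ i, ∫ z, ∑ j, gin (L j) (L i) z = ∑ j, ∫ z, gin (L j) (L i) z :=
    fun i => integral_finsetSum _ (fun j _ => hi2 i j)
  simp_rw [e3] at hI
  have hcard : (Finset.univ : Finset (Fin m)).card = m := by simp
  have s1 : (m : ℝ) * (2 * π * (M - δ)) ≤ ∑ i, ∫ z, gin v (L i) z := by
    have := Finset.card_nsmul_le_sum (Finset.univ : Finset (Fin m))
      (fun i => ∫ z, gin v (L i) z) (2 * π * (M - δ)) (fun i _ => h1 i)
    rwa [hcard, nsmul_eq_mul] at this
  have s2 : ∑ i, ∑ j, ∫ z, gin (L j) (L i) z ≤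
      (m : ℝ) ^ 2 * (2 * π * Real.log T) + 2 * π * (∑ i, ∑ j, -Real.log ‖w i - w j‖)
        + 2 * π * (m * (-Real.log ε)) := by
    have s3 : ∑ i, ∑ j, ∫ z, gin (L j) (L i) z ≤
        ∑ i : Fin m, ∑ j : Fin m, (2 * π * Real.log T +
          2 * π * (if i = j then -Real.log ε else -Real.log ‖w i - w j‖)) :=
      Finset.sum_le_sum fun i _ => Finset.sum_le_sum fun j _ => h2 i j
    refine s3.trans (le_of_eq ?_)
    have s4 : ∀ i j : Fin m, (if i = j then -Real.log ε else -Real.log ‖w i - w j‖) =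
        -Real.log ‖w i - w j‖ + (if i = j then -Real.log ε else 0) := by
      intro i j
      by_cases hij : i = j
      · subst hij; simp
      · simp [hij]
    simp_rw [s4, mul_add, Finset.sum_add_distrib]
    simp only [Finset.sum_const, hcard, nsmul_eq_mul, mul_ite, mul_zero,
      Finset.sum_ite_eq, Finset.mem_univ, if_true]
    simp_rw [← Finset.mul_sum]
    ring
  have hpi := Real.pi_pos
  have t1 : 2 / (m : ℝ) * ((m : ℝ) * (2 * π * (M - δ))) ≤ 2 / m * ∑ i, ∫ z, gin v (L i) z :=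
    mul_le_mul_of_nonneg_left s1 (by positivity)
  have t2 := mul_le_mul_of_nonneg_left s2 (show (0 : ℝ) ≤ 1 / (m : ℝ) ^ 2 by positivity)
  have t3 : 2 / (m : ℝ) * ((m : ℝ) * (2 * π * (M - δ))) = 4 * π * (M - δ) := by
    field_simp; ring
  have t4 : 1 / (m : ℝ) ^ 2 * ((m : ℝ) ^ 2 * (2 * π * Real.log T) +
      2 * π * (∑ i, ∑ j, -Real.log ‖w i - w j‖) + 2 * π * (m * (-Real.log ε))) =
      2 * π * Real.log T + 2 * π / m ^ 2 * (∑ i, ∑ j, -Real.log ‖w i - w j‖)
      + 2 * π / m * (-Real.log ε) := by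
    field_simp
  rw [t3] at t1
  rw [t4] at t2
  linarith

/-- truncation of u at the level M, and M outside of the disc -/
noncomputable def trunc (u : ℂ → ℝ) (R M : ℝ) (z : ℂ) : ℝ := if ‖z‖ ≤ R then min (u z) M else M

lemma trunc_of_le (u : ℂ → ℝ) {R M : ℝ} {z : ℂ} (h : ‖z‖ ≤ R) : trunc u R M z = min (u z) M :=
  if_pos h

lemma trunc_of_gt (u : ℂ → ℝ) {R M : ℝ} {z : ℂ} (h : R < ‖z‖) : trunc u R M z = M :=
  if_neg (not_le.2 h)

lemma trunc_le (u : ℂ → ℝ) (R M : ℝ) (z : ℂ) : trunc u R M z ≤ M := by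
  unfold trunc; split_ifs
  · exact min_le_right _ _
  · exact le_rfl

lemma exists_cross {R : ℝ} {z z' : ℂ} (h : ‖z‖ ≤ R) (h' : R < ‖z'‖) :
    ∃ y : ℂ, ‖y‖ = R ∧ ‖z - y‖ ≤ ‖z - z'‖ := by
  have hc : ContinuousOn (fun t : ℝ => ‖z + t • (z' - z)‖) (Icc 0 1) := by fun_prop
  have hi := intermediate_value_Icc (zero_le_one' ℝ) hc
  have hR : R ∈ Icc ((fun t : ℝ => ‖z + t • (z' - z)‖) 0) ((fun t : ℝ => ‖z + t • (z' - z)‖) 1) := by
    simp only [zero_smul, add_zero, one_smul, add_sub_cancel, mem_Icc]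
    exact ⟨h, h'.le⟩
  obtain ⟨t, ht, hty⟩ := hi hR
  refine ⟨z + t • (z' - z), hty, ?_⟩
  have : z - (z + t • (z' - z)) = t • (z - z') := by
    rw [smul_sub, smul_sub]; ring
  rw [this, norm_smul, Real.norm_eq_abs, abs_of_nonneg ht.1]
  exact mul_le_of_le_one_left (norm_nonneg _) ht.2

lemma trunc_lip {u : ℂ → ℝ} {K : ℝ≥0} {R M : ℝ}
    (hu : LipschitzOnWith K u (Metric.closedBall 0 R)) (hb : ∀ z, ‖z‖ = R → M ≤ u z) :
    LipschitzWith K (trunc u R M) := by
  have key : ∀ z z' : ℂ, ‖z‖ ≤ R → ‖z'‖ ≤ R →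
      |trunc u R M z - trunc u R M z'| ≤ K * ‖z - z'‖ := by
    intro z z' hz hz'
    rw [trunc_of_le u hz, trunc_of_le u hz']
    have h1 : |min (u z) M - min (u z') M| ≤ |u z - u z'| := by
      have := abs_min_sub_min_le_max (u z) M (u z') M
      simpa using this
    refine h1.trans ?_
    have := hu.dist_le_mul z (by simpa using hz) z' (by simpa using hz')
    rwa [Real.dist_eq, dist_eq_norm] at this
  have key2 : ∀ z z' : ℂ, ‖z‖ ≤ R → R < ‖z'‖ →
      |trunc u R M z - trunc u R M z'| ≤ K * ‖z - z'‖ := by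
    intro z z' hz hz'
    obtain ⟨y, hy, hzy⟩ := exists_cross hz hz'
    have h2 : trunc u R M z' = trunc u R M y := by
      rw [trunc_of_gt u hz', trunc_of_le u hy.le, min_eq_right (hb y hy)]
    rw [h2]
    exact (key z y hz hy.le).trans (mul_le_mul_of_nonneg_left hzy K.2)
  apply LipschitzWith.of_dist_le_mul
  intro z z'
  rw [Real.dist_eq, dist_eq_norm]
  rcases le_or_gt ‖z‖ R with h | h <;> rcases le_or_gt ‖z'‖ R with h' | h'
  · exact key z z' h h'
  · exact key2 z z' h h'
  · rw [abs_sub_comm, norm_sub_rev]; exact key2 z' z h' h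
  · rw [trunc_of_gt u h, trunc_of_gt u h', sub_self, abs_zero]; positivity

lemma gsq_nonneg (u : ℂ → ℝ) (z : ℂ) : 0 ≤ gsq u z := by unfold gsq; positivity

lemma gsq_trunc_outside {u : ℂ → ℝ} {R M : ℝ} {z : ℂ} (hz : R < ‖z‖) :
    gsq (trunc u R M) z = 0 := by
  have hloc : trunc u R M =ᶠ[𝓝 z] fun _ => M := by
    have hc : ContinuousAt (fun z : ℂ => ‖z‖) z := by fun_prop
    filter_upwards [hc.eventually (lt_mem_nhds hz)] with y hy using trunc_of_gt u hy
  simp [gsq, ux, uy, hloc.fderiv_eq]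

lemma gsq_trunc_inside {u : ℂ → ℝ} {K : ℝ≥0} {R M : ℝ}
    (hu : LipschitzOnWith K u (Metric.closedBall 0 R)) {z : ℂ} (hz : ‖z‖ < R) :
    gsq (trunc u R M) z ≤ gsq u z := by
  rcases lt_or_ge (u z) M with h | h
  · have hcu : ContinuousAt u z := by
      apply hu.continuousOn.continuousAt
      exact Metric.closedBall_mem_nhds_of_mem (by simpa using hz)
    have hloc : trunc u R M =ᶠ[𝓝 z] u := by
      have hc : ContinuousAt (fun z : ℂ => ‖z‖) z := by fun_prop
      filter_upwards [hc.eventually (gt_mem_nhds hz), hcu.eventually (gt_mem_nhds h)]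
        with y hy hy2
      rw [trunc_of_le u hy.le, min_eq_left hy2.le]
    simp [gsq, ux, uy, hloc.fderiv_eq]
  · have hmax : IsLocalMax (trunc u R M) z := by
      refine Filter.Eventually.of_forall fun y => ?_
      rw [trunc_of_le u hz.le, min_eq_right h]
      exact trunc_le u R M y
    have : fderiv ℝ (trunc u R M) z = 0 := hmax.fderiv_eq_zero
    have h0 : gsq (trunc u R M) z = 0 := by simp [gsq, ux, uy, this]
    rw [h0]; exact gsq_nonneg _ _

lemma gsq_le_of_lip {u : ℂ → ℝ} {K : ℝ≥0} {s : Set ℂ} (hu : LipschitzOnWith K u s) {z : ℂ}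
    (hz : s ∈ 𝓝 z) : gsq u z ≤ 2 * (K : ℝ) ^ 2 := by
  have h0 := norm_fderiv_le_of_lipschitzOn ℝ hz hu
  have h1 := (fderiv ℝ u z).le_opNorm (1 : ℂ)
  have h2 := (fderiv ℝ u z).le_opNorm Complex.I
  simp only [norm_one, mul_one, Complex.norm_I] at h1 h2
  rw [gsq, ux, uy, ← sq_abs (fderiv ℝ u z 1), ← sq_abs (fderiv ℝ u z Complex.I)]
  have h3 : |fderiv ℝ u z 1| ≤ K := h1.trans h0
  have h4 : |fderiv ℝ u z Complex.I| ≤ K := h2.trans h0
  have := pow_le_pow_left₀ (abs_nonneg _) h3 2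
  have := pow_le_pow_left₀ (abs_nonneg _) h4 2
  linarith

lemma measurable_gsq (u : ℂ → ℝ) : Measurable (gsq u) :=
  (measurable_ux.pow_const 2).add (measurable_uy.pow_const 2)

lemma integrableOn_gsq {u : ℂ → ℝ} {K : ℝ≥0} {R : ℝ}
    (hu : LipschitzOnWith K u (Metric.closedBall 0 R)) :
    IntegrableOn (gsq u) (Metric.ball 0 R) := by
  have hfin : IsFiniteMeasure ((volume : Measure ℂ).restrict (Metric.ball 0 R)) :=
    ⟨by rw [Measure.restrict_apply_univ]; exact measure_ball_lt_top⟩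
  refine Integrable.of_bound (C := 2 * (K : ℝ) ^ 2) (measurable_gsq u).aestronglyMeasurable ?_
  filter_upwards [ae_restrict_mem Metric.isOpen_ball.measurableSet] with z hz
  rw [Real.norm_of_nonneg (gsq_nonneg u z)]
  exact gsq_le_of_lip hu (Metric.closedBall_mem_nhds_of_mem hz)

lemma gsq_trunc_ae {u : ℂ → ℝ} {K : ℝ≥0} {R M : ℝ}
    (hu : LipschitzOnWith K u (Metric.closedBall 0 R)) :
    ∀ᵐ z, gsq (trunc u R M) z ≤ (Metric.ball (0 : ℂ) R).indicator (gsq u) z := by
  have h0 : volume (Metric.sphere (0 : ℂ) R) = 0 := Measure.addHaar_sphere _ _ _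
  filter_upwards [measure_eq_zero_iff_ae_notMem.1 h0] with z hz
  rw [mem_sphere_iff_norm, sub_zero] at hz
  rcases lt_or_gt_of_ne hz with h | h
  · rw [indicator_of_mem (by simpa using h)]
    exact gsq_trunc_inside hu h
  · rw [gsq_trunc_outside h]
    exact indicator_nonneg (fun _ _ => gsq_nonneg _ _) _

/-- DIRICHLET PRINCIPLE AGAINST POINTS -/
theorem energy_points {R ρ c η η' δ ε : ℝ} {K : ℝ≥0} {u : ℂ → ℝ}
    (hu : LipschitzOnWith K u (Metric.closedBall 0 R))
    (hb : ∀ z, ‖z‖ = R → Real.log R + c - η ≤ u z)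
    (hE : ∫ z in Metric.ball 0 R, gsq u z ≤ 2 * π * (Real.log R + c + η'))
    {m : ℕ} (hm : 0 < m) (w : Fin m → ℂ) (hinj : Function.Injective w)
    (hρ : 0 ≤ ρ) (hw : ∀ i, ‖w i‖ ≤ ρ) (hε : 0 < ε) (hR : ρ + ε < R)
    (hδ : ∀ i z, ‖z - w i‖ = ε → u z ≤ δ) :
    c - 2 * η - η' - 2 * δ - Real.log (1 + ρ / R) ≤
      1 / (m : ℝ) ^ 2 * (∑ i, ∑ j, -Real.log ‖w i - w j‖) + 1 / m * (-Real.log ε) := by
  set M := Real.log R + c - η with hMdef
  have hR0 : 0 < R := by linarith
  have hlip := trunc_lip hu hb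
  have hind : Integrable ((Metric.ball (0 : ℂ) R).indicator (gsq u)) :=
    (integrable_indicator_iff Metric.isOpen_ball.measurableSet).2 (integrableOn_gsq hu)
  have hvi : Integrable (gsq (trunc u R M)) := by
    refine hind.mono' (measurable_gsq _).aestronglyMeasurable ?_
    filter_upwards [gsq_trunc_ae (M := M) hu] with z hz
    rwa [Real.norm_of_nonneg (gsq_nonneg _ z)]
  have hle : ∫ z, gsq (trunc u R M) z ≤ 2 * π * (Real.log R + c + η') := by
    refine le_trans ?_ hE
    rw [← integral_indicator Metric.isOpen_ball.measurableSet]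
    exact integral_mono_ae hvi hind (gsq_trunc_ae hu)
  have hmain := energy_points0 hlip hvi hm w hinj (ρ := ρ) (ε := ε) (T := R + ρ) (M := M)
    (δ := δ) hε hw (by linarith) (by linarith) (by
      intro z hz
      have hz' : R ≤ ‖z‖ := by linarith
      rcases eq_or_lt_of_le hz' with h | h
      · rw [trunc_of_le u h.symm.le, min_eq_right (hb z h.symm)]
      · rw [trunc_of_gt u h]) (by
      intro i z hz
      have hzR : ‖z‖ ≤ R := by
        calc ‖z‖ = ‖(z - w i) + w i‖ := by congr 1; ring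
          _ ≤ ‖z - w i‖ + ‖w i‖ := norm_add_le _ _
          _ ≤ R := by rw [hz]; linarith [hw i]
      rw [trunc_of_le u hzR]
      exact (min_le_left _ _).trans (hδ i z hz))
  have hlogT : Real.log (1 + ρ / R) = Real.log (R + ρ) - Real.log R := by
    rw [← Real.log_div (by linarith) hR0.ne']
    congr 1; field_simp
  have hpi := Real.pi_pos
  have hm' : (0 : ℝ) < m := by exact_mod_cast hm
  rw [hlogT]
  set S := ∑ i, ∑ j, -Real.log ‖w i - w j‖ with hS
  have h5 : 0 ≤ 2 * π * ((Real.log R + c + η') - 2 * (M - δ) + Real.log (R + ρ)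
      + 1 / (m : ℝ) ^ 2 * S + 1 / m * (-Real.log ε)) := by
    have : 2 * π * ((Real.log R + c + η') - 2 * (M - δ) + Real.log (R + ρ)
      + 1 / (m : ℝ) ^ 2 * S + 1 / m * (-Real.log ε)) =
      2 * π * (Real.log R + c + η') - 4 * π * (M - δ) + 2 * π * Real.log (R + ρ)
      + 2 * π / m ^ 2 * S + 2 * π / m * (-Real.log ε) := by
      field_simp; ring
    rw [this]; linarith
  have h6 := nonneg_of_mul_nonneg_right h5 (by positivity)
  rw [hMdef] at h6
  linarith

end Pool.Agent.H53.EH
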